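import Pool.Agent.Helper20.QD.St2

open Filter Topology Matrix Set Metric
open scoped ComplexConjugate

namespace Pool.Agent.Helper11.QD

open Pool.Agent.Helper35.PM Pool.Agent.Helper20.QD

theorem PK_pos {z ζ : ℂ} (hz : z ∈ D) (hζ : ζ ∈ SS) : 0 < PK z ζ := by
  have h1 : ‖z‖ < 1 := by simpa using hz
  have h2 : ‖ζ‖ = 1 := by simpa using hζ
  unfold PK
  have h3 : ζ ≠ z := by rintro rfl; linarith
  have h4 : 0 < ‖ζ - z‖ := norm_pos_iff.mpr (sub_ne_zero.mpr h3)
  have h5 : 0 < 1 - ‖z‖ ^ 2 := by nlinarith [norm_nonneg z]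
  positivity

theorem e_mem (t : ℝ) : Complex.exp (t * Complex.I) ∈ SS := by
  simp [Complex.norm_exp_ofReal_mul_I]

theorem PI_eq (u : ℂ → ℂ) (z : ℂ) :
    PI u z = Real.circleAverage (poissonKernel 0 z • u) 0 1 := by
  rw [Real.circleAverage_def]
  unfold PI
  rw [← Complex.ofReal_inv, ← Complex.real_smul]
  congr 1
  apply intervalIntegral.integral_congr
  intro t _
  have h1 : ‖Complex.exp (t * Complex.I)‖ = 1 := Complex.norm_exp_ofReal_mul_I t
  simp [circleMap, poissonKernel_def, PK, h1]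

theorem PI_holo {f : ℂ → ℂ} (hf : DiffContOnCl ℂ f (ball 0 1)) {z : ℂ} (hz : z ∈ D) :
    PI f z = f z := by
  rw [PI_eq]; exact hf.circleAverage_poissonKernel_smul hz

theorem PI_congr {u v : ℂ → ℂ} (h : ∀ ζ ∈ SS, u ζ = v ζ) (z : ℂ) : PI u z = PI v z := by
  unfold PI
  congr 1
  apply intervalIntegral.integral_congr
  intro t _
  simp only
  rw [h _ (e_mem t)]

theorem PI_conj (u : ℂ → ℂ) (z : ℂ) : PI (fun ζ => conj (u ζ)) z = conj (PI u z) := by
  unfold PI
  rw [map_mul, intervalIntegral.integral_of_le (by positivity),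
    intervalIntegral.integral_of_le (by positivity), ← integral_conj, map_inv₀, Complex.conj_ofReal]
  congr 2
  ext t
  rw [map_mul, Complex.conj_ofReal]

/-! continuity and the bound -/

theorem cont_e : Continuous fun t : ℝ => Complex.exp (t * Complex.I) := by fun_prop

theorem cont_PK {z : ℂ} (hz : z ∈ D) :
    Continuous fun t : ℝ => PK z (Complex.exp (t * Complex.I)) := by
  unfold PK
  have h1 : ‖z‖ < 1 := by simpa using hz
  refine Continuous.div continuous_const (by fun_prop) ?_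
  intro t
  have h2 : ‖Complex.exp (t * Complex.I)‖ = 1 := Complex.norm_exp_ofReal_mul_I t
  have h3 : Complex.exp (t * Complex.I) ≠ z := by
    intro h; rw [h] at h2; linarith
  have h4 : 0 < ‖Complex.exp (t * Complex.I) - z‖ := norm_pos_iff.mpr (sub_ne_zero.mpr h3)
  positivity

theorem cont_ue {u : ℂ → ℂ} (hu : ContinuousOn u SS) :
    Continuous fun t : ℝ => u (Complex.exp (t * Complex.I)) :=
  hu.comp_continuous cont_e e_mem

theorem cont_int {u : ℂ → ℂ} (hu : ContinuousOn u SS) {z : ℂ} (hz : z ∈ D) :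
    Continuous fun t : ℝ => (PK z (Complex.exp (t * Complex.I)) : ℂ) *
      u (Complex.exp (t * Complex.I)) :=
  (Complex.continuous_ofReal.comp (cont_PK hz)).mul (cont_ue hu)

theorem PI_add {u v : ℂ → ℂ} (hu : ContinuousOn u SS) (hv : ContinuousOn v SS) {z : ℂ}
    (hz : z ∈ D) : PI (fun ζ => u ζ + v ζ) z = PI u z + PI v z := by
  unfold PI
  rw [← mul_add, ← intervalIntegral.integral_add ((cont_int hu hz).intervalIntegrable _ _)
    ((cont_int hv hz).intervalIntegrable _ _)]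
  congr 1
  apply intervalIntegral.integral_congr
  intro t _
  simp only
  ring

theorem PI_smul (c : ℂ) (u : ℂ → ℂ) (z : ℂ) : PI (fun ζ => c * u ζ) z = c * PI u z := by
  unfold PI
  rw [mul_left_comm]
  congr 1
  rw [← intervalIntegral.integral_const_mul]
  apply intervalIntegral.integral_congr
  intro t _
  simp only
  ring

theorem PI_one {z : ℂ} (hz : z ∈ D) : PI (fun _ => 1) z = 1 :=
  PI_holo (f := fun _ => 1) diffContOnCl_const hz

theorem PI_bound {u : ℂ → ℂ} {ε : ℝ} (hb : ∀ ζ ∈ SS, ‖u ζ‖ ≤ ε) {z : ℂ}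
    (hz : z ∈ D) : ‖PI u z‖ ≤ ε := by
  have h1 : (2 * Real.pi)⁻¹ * ∫ t in (0 : ℝ)..(2 * Real.pi), PK z (Complex.exp (t * Complex.I))
      = 1 := by
    have h := PI_one hz
    unfold PI at h
    have h2 : ∀ t : ℝ, (PK z (Complex.exp (t * Complex.I)) : ℂ) * 1 =
      ((PK z (Complex.exp (t * Complex.I)) : ℝ) : ℂ) := fun t => mul_one _
    simp only [h2] at h
    rw [intervalIntegral.integral_ofReal] at h
    exact_mod_cast h
  have h3 : ‖∫ t in (0 : ℝ)..(2 * Real.pi),
      (PK z (Complex.exp (t * Complex.I)) : ℂ) * u (Complex.exp (t * Complex.I))‖ ≤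
      ∫ t in (0 : ℝ)..(2 * Real.pi), PK z (Complex.exp (t * Complex.I)) * ε := by
    apply intervalIntegral.norm_integral_le_of_norm_le (by positivity)
    · refine Filter.Eventually.of_forall fun t _ => ?_
      rw [norm_mul, Complex.norm_real, Real.norm_eq_abs, abs_of_pos (PK_pos hz (e_mem t))]
      exact mul_le_mul_of_nonneg_left (hb _ (e_mem t)) (PK_pos hz (e_mem t)).le
    · exact ((cont_PK hz).mul continuous_const).intervalIntegrable _ _
  unfold PI
  rw [norm_mul, norm_inv, Complex.norm_real, Real.norm_eq_abs, abs_of_pos (by positivity)]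
  calc _ ≤ (2 * Real.pi)⁻¹ * ∫ t in (0 : ℝ)..(2 * Real.pi),
        PK z (Complex.exp (t * Complex.I)) * ε := by gcongr
    _ = ((2 * Real.pi)⁻¹ * ∫ t in (0 : ℝ)..(2 * Real.pi),
        PK z (Complex.exp (t * Complex.I))) * ε := by
        rw [intervalIntegral.integral_mul_const]; ring
    _ = ε := by rw [h1, one_mul]

/-! `SU(1,1)` -/

section SU

variable {A : SL} (hA : IsSU A)
include hA

theorem su_det : (A : Mat) 0 0 * conj ((A : Mat) 0 0) - (A : Mat) 0 1 * conj ((A : Mat) 0 1) = 1 := by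
  have h := A.2
  rw [Matrix.det_fin_two] at h
  have h1 := hA.1
  have h2 := hA.2
  rw [← h1, ← h2]
  exact h

theorem su_id (z : ℂ) : ‖den A z‖ ^ 2 - ‖(A : Mat) 0 0 * z + (A : Mat) 0 1‖ ^ 2 = 1 - ‖z‖ ^ 2 := by
  have h := su_det hA
  have h1 := hA.1
  have h2 := hA.2
  have hc : ((‖den A z‖ ^ 2 - ‖(A : Mat) 0 0 * z + (A : Mat) 0 1‖ ^ 2 : ℝ) : ℂ) =
      ((1 - ‖z‖ ^ 2 : ℝ) : ℂ) := by
    push_cast
    rw [← Complex.mul_conj', ← Complex.mul_conj', ← Complex.mul_conj']
    unfold den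
    rw [h1, h2]
    simp only [map_add, map_mul, Complex.conj_conj]
    linear_combination (1 - z * conj z) * h
  exact_mod_cast hc

theorem su_den {z : ℂ} (hz : z ∈ DD) : den A z ≠ 0 := by
  intro h0
  have h1 : ‖z‖ ≤ 1 := by simpa using hz
  have h2 := su_id hA z
  rw [h0] at h2
  have h3 : ‖(A : Mat) 0 0 * z + (A : Mat) 0 1‖ = 0 := by
    have : ‖(A : Mat) 0 0 * z + (A : Mat) 0 1‖ ^ 2 ≤ 0 := by
      have : 0 ≤ 1 - ‖z‖ ^ 2 := by nlinarith [norm_nonneg z]
      simp at h2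
      linarith
    nlinarith [norm_nonneg ((A : Mat) 0 0 * z + (A : Mat) 0 1)]
  rw [norm_eq_zero] at h3
  have h := su_det hA
  unfold den at h0
  rw [hA.1, hA.2] at h0
  have : (1 : ℂ) = 0 := by
    linear_combination (-1 : ℂ) * h + (A : Mat) 0 0 * h0 - conj ((A : Mat) 0 1) * h3
  exact one_ne_zero this

theorem su_mob_D {z : ℂ} (hz : z ∈ D) : mob A z ∈ D := by
  have h1 : ‖z‖ < 1 := by simpa using hz
  have h2 := su_id hA z
  have h3 : den A z ≠ 0 := su_den hA (by simpa using h1.le)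
  have h4 : 0 < ‖den A z‖ := norm_pos_iff.mpr h3
  have h5 : ‖mob A z‖ < 1 := by
    show ‖((A : Mat) 0 0 * z + (A : Mat) 0 1) / den A z‖ < 1
    rw [norm_div, div_lt_one h4]
    have : ‖(A : Mat) 0 0 * z + (A : Mat) 0 1‖ ^ 2 < ‖den A z‖ ^ 2 := by
      nlinarith [norm_nonneg z]
    exact lt_of_pow_lt_pow_left₀ 2 h4.le this
  simpa using h5

theorem su_mob_S {z : ℂ} (hz : z ∈ SS) : mob A z ∈ SS := by
  have h1 : ‖z‖ = 1 := by simpa using hz
  have h2 := su_id hA z
  have h3 : den A z ≠ 0 := su_den hA (by simpa using h1.le)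
  have h4 : 0 < ‖den A z‖ := norm_pos_iff.mpr h3
  have h5 : ‖mob A z‖ = 1 := by
    show ‖((A : Mat) 0 0 * z + (A : Mat) 0 1) / den A z‖ = 1
    rw [norm_div, div_eq_one_iff_eq h4.ne']
    rw [h1] at h2
    have : ‖(A : Mat) 0 0 * z + (A : Mat) 0 1‖ ^ 2 = ‖den A z‖ ^ 2 := by linarith
    exact (pow_left_inj₀ (norm_nonneg _) (norm_nonneg _) two_ne_zero).mp this
  simpa using h5

theorem su_mob_cont : ContinuousOn (mob A) DD := by
  unfold mob
  refine ContinuousOn.div (by fun_prop) (by fun_prop) ?_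
  intro z hz
  exact su_den hA hz

theorem su_mob_dc (n : ℕ) : DiffContOnCl ℂ (fun z => (mob A z) ^ n) (ball 0 1) := by
  constructor
  · intro z hz
    have h3 : (A : Mat) 1 0 * z + (A : Mat) 1 1 ≠ 0 := su_den hA (ball_subset_closedBall hz)
    have : DifferentiableAt ℂ (mob A) z := by
      unfold mob
      exact DifferentiableAt.div (by fun_prop) (by fun_prop) h3
    exact (this.pow n).differentiableWithinAt
  · rw [closure_ball _ one_ne_zero]
    exact (su_mob_cont hA).pow n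

end SU

theorem unit_zpow_neg {ζ : ℂ} (h : ζ ∈ SS) (n : ℕ) : ζ ^ (-(n : ℤ)) = conj (ζ ^ n) := by
  have h1 : ‖ζ‖ = 1 := by simpa using h
  rw [_root_.zpow_neg, _root_.zpow_natCast, map_pow, ← inv_pow]
  congr 1
  rw [Complex.inv_def, Complex.normSq_eq_norm_sq, h1]
  simp

theorem mono {A : SL} (hA : IsSU A) {z : ℂ} (hz : z ∈ D) (n : ℤ) :
    PI (fun ζ => (mob A ζ) ^ n) z = PI (fun ζ => ζ ^ n) (mob A z) := by
  have key : ∀ n : ℕ, PI (fun ζ => (mob A ζ) ^ n) z = PI (fun ζ => ζ ^ n) (mob A z) := by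
    intro n
    rw [PI_holo (su_mob_dc hA n) hz]
    rw [PI_holo (f := fun ζ => ζ ^ n) (Differentiable.diffContOnCl (by fun_prop)) (su_mob_D hA hz)]
  obtain ⟨m, rfl | rfl⟩ := n.eq_nat_or_neg
  · simpa only [zpow_natCast] using key m
  · rw [PI_congr (v := fun ζ => conj ((mob A ζ) ^ m))
      (fun ζ hζ => unit_zpow_neg (su_mob_S hA hζ) m) z,
      PI_congr (v := fun ζ => conj (ζ ^ m)) (fun ζ hζ => unit_zpow_neg hζ m) (mob A z),
      PI_conj, PI_conj, key m]

/-- Laurent polynomials are dense. -/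
theorem dense {u : ℂ → ℂ} (hu : ContinuousOn u SS) {ε : ℝ} (hε : 0 < ε) :
    ∃ c : ℤ →₀ ℂ, ∀ ζ ∈ SS, ‖u ζ - c.sum (fun n a => a * ζ ^ n)‖ ≤ ε := by
  have : Fact (0 < 2 * Real.pi) := ⟨by positivity⟩
  have hU : Continuous fun x : AddCircle (2 * Real.pi) => u (AddCircle.toCircle x : ℂ) := by
    refine hu.comp_continuous (by fun_prop) ?_
    intro x
    simp
  let U : C(AddCircle (2 * Real.pi), ℂ) := ⟨_, hU⟩
  have h1 : U ∈ (Submodule.span ℂ (Set.range (fourier (T := 2 * Real.pi)))).topologicalClosure := by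
    rw [span_fourier_closure_eq_top]; trivial
  have h2 : U ∈ closure ((Submodule.span ℂ (Set.range (fourier (T := 2 * Real.pi))) :
      Submodule ℂ C(AddCircle (2 * Real.pi), ℂ)) : Set C(AddCircle (2 * Real.pi), ℂ)) := h1
  obtain ⟨P, hP, hUP⟩ := Metric.mem_closure_iff.mp h2 ε hε
  obtain ⟨c, hc⟩ := Finsupp.mem_span_range_iff_exists_finsupp.mp hP
  refine ⟨c, fun ζ hζ => ?_⟩
  have h3 : ‖ζ‖ = 1 := by simpa using hζ
  have h4 : ζ = Complex.exp (Complex.arg ζ * Complex.I) := by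
    have := Complex.norm_mul_exp_arg_mul_I ζ
    rw [h3] at this
    simpa using this.symm
  set x : AddCircle (2 * Real.pi) := ((Complex.arg ζ : ℝ) : AddCircle (2 * Real.pi)) with hx
  have h5 : (AddCircle.toCircle x : ℂ) = ζ := by
    rw [hx, AddCircle.toCircle_apply_mk, Circle.coe_exp]
    conv_rhs => rw [h4]
    congr 1
    have : (2 * Real.pi / (2 * Real.pi)) = 1 := by
      field_simp
    rw [this, one_mul]
  have h6 : ∀ n : ℤ, fourier n x = ζ ^ n := by
    intro n
    rw [fourier_apply, AddCircle.toCircle_zsmul, Circle.coe_zpow, h5]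
  have h7 : P x = c.sum (fun n a => a * ζ ^ n) := by
    rw [← hc, Finsupp.sum, Finsupp.sum, ContinuousMap.coe_sum, Finset.sum_apply]
    refine Finset.sum_congr rfl fun n _ => ?_
    simp [h6]
  have h8 : U x = u ζ := by
    show u (AddCircle.toCircle x : ℂ) = u ζ
    rw [h5]
  rw [← h7, ← h8, ← dist_eq_norm]
  exact ((ContinuousMap.dist_apply_le_dist x).trans hUP.le)

theorem laurent {A : SL} (hA : IsSU A) {z : ℂ} (hz : z ∈ D) (c : ℤ →₀ ℂ) :
    PI (fun ζ => c.sum (fun n a => a * (mob A ζ) ^ n)) z =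
      PI (fun ζ => c.sum (fun n a => a * ζ ^ n)) (mob A z) := by
  have hcz : ∀ n : ℤ, ContinuousOn (fun ζ : ℂ => ζ ^ n) SS := by
    intro n ζ hζ
    have h1 : ‖ζ‖ = 1 := by simpa using hζ
    have : ζ ≠ 0 := by intro h; rw [h] at h1; simp at h1
    exact (continuousAt_zpow₀ ζ n (Or.inl this)).continuousWithinAt
  have hcm : ∀ n : ℤ, ContinuousOn (fun ζ : ℂ => (mob A ζ) ^ n) SS := by
    intro n
    exact (hcz n).comp ((su_mob_cont hA).mono sphere_subset_closedBall)
      (fun ζ hζ => su_mob_S hA hζ)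
  have hsum : ∀ (s : Finset ℤ) (f : ℤ → ℂ → ℂ) (w : ℂ), w ∈ D → (∀ n, ContinuousOn (f n) SS) →
      PI (fun ζ => ∑ n ∈ s, c n * f n ζ) w = ∑ n ∈ s, c n * PI (f n) w := by
    intro s f w hw hf
    induction s using Finset.induction_on with
    | empty => simp [PI]
    | insert a s ha ih =>
      simp only [Finset.sum_insert ha]
      rw [PI_add (u := fun ζ => c a * f a ζ) (v := fun ζ => ∑ n ∈ s, c n * f n ζ)
        (continuousOn_const.mul (hf a)) ?_ hw, PI_smul, ih]
      exact continuousOn_finsetSum _ fun n _ => continuousOn_const.mul (hf n)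
  simp only [Finsupp.sum]
  rw [hsum c.support (fun n ζ => (mob A ζ) ^ n) z hz hcm,
    hsum c.support (fun n ζ => ζ ^ n) (mob A z) (su_mob_D hA hz) hcz]
  exact Finset.sum_congr rfl fun n _ => by rw [mono hA hz]

theorem hPIN : StPIN := by
  refine ⟨?_, fun z hz => PI_one hz, fun z hz ζ hζ => PK_pos hz hζ⟩
  intro A u hA hu z hz
  have hcz : ∀ n : ℤ, ContinuousOn (fun ζ : ℂ => ζ ^ n) SS := by
    intro n ζ hζ
    have h1 : ‖ζ‖ = 1 := by simpa using hζ
    have : ζ ≠ 0 := by intro h; rw [h] at h1; simp at h1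
    exact (continuousAt_zpow₀ ζ n (Or.inl this)).continuousWithinAt
  have hms : ContinuousOn (mob A) SS := (su_mob_cont hA).mono sphere_subset_closedBall
  have hmm : MapsTo (mob A) SS SS := fun ζ hζ => su_mob_S hA hζ
  have key : ∀ ε : ℝ, 0 < ε → ‖PI (fun ζ => u (mob A ζ)) z - PI u (mob A z)‖ ≤ 2 * ε := by
    intro ε hε
    obtain ⟨c, hc⟩ := dense hu hε
    set p : ℂ → ℂ := fun ζ => c.sum (fun n a => a * ζ ^ n) with hp
    have hpc : ContinuousOn p SS := by
      simp only [hp, Finsupp.sum]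
      exact continuousOn_finsetSum _ fun n _ => continuousOn_const.mul (hcz n)
    have hd : ContinuousOn (fun ζ => u ζ - p ζ) SS := hu.sub hpc
    have e1 : PI u (mob A z) = PI p (mob A z) + PI (fun ζ => u ζ - p ζ) (mob A z) := by
      rw [← PI_add hpc hd (su_mob_D hA hz)]
      exact PI_congr (fun ζ _ => by ring) _
    have e2 : PI (fun ζ => u (mob A ζ)) z =
        PI (fun ζ => p (mob A ζ)) z + PI (fun ζ => u (mob A ζ) - p (mob A ζ)) z := by
      have := PI_add (u := fun ζ => p (mob A ζ)) (v := fun ζ => u (mob A ζ) - p (mob A ζ))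
        (hpc.comp hms hmm) (hd.comp hms hmm) hz
      rw [← this]
      exact PI_congr (fun ζ _ => by ring) _
    have e3 : PI (fun ζ => p (mob A ζ)) z = PI p (mob A z) := laurent hA hz c
    have b1 : ‖PI (fun ζ => u ζ - p ζ) (mob A z)‖ ≤ ε := PI_bound hc (su_mob_D hA hz)
    have b2 : ‖PI (fun ζ => u (mob A ζ) - p (mob A ζ)) z‖ ≤ ε :=
      PI_bound (fun ζ hζ => hc _ (su_mob_S hA hζ)) hz
    rw [e1, e2, e3]
    have : PI p (mob A z) + PI (fun ζ => u (mob A ζ) - p (mob A ζ)) z -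
        (PI p (mob A z) + PI (fun ζ => u ζ - p ζ) (mob A z)) =
        PI (fun ζ => u (mob A ζ) - p (mob A ζ)) z - PI (fun ζ => u ζ - p ζ) (mob A z) := by ring
    rw [this]
    refine (norm_sub_le _ _).trans ?_
    linarith
  have h0 : ‖PI (fun ζ => u (mob A ζ)) z - PI u (mob A z)‖ ≤ 0 := by
    refine le_of_forall_pos_le_add fun δ hδ => ?_
    have := key (δ / 2) (by positivity)
    linarith
  have h1 : PI (fun ζ => u (mob A ζ)) z - PI u (mob A z) = 0 := by
    rw [← norm_eq_zero]; exact le_antisymm h0 (norm_nonneg _)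
  exact sub_eq_zero.mp h1

end Pool.Agent.Helper11.QD
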