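import Pool.Agent.Helper20.QD.St1

/-!
# Project QD (MP_d112a4_gt), part B, module TMS: criterion for preserving the inside
-/

set_option autoImplicit false

open Filter Topology Matrix Set Metric
open scoped ComplexConjugate ComplexOrder

namespace Pool.Agent.Helper11.QD

open Pool.Agent.Helper35.PM Pool.Agent.Helper20.QD

theorem hTMS (hTPB : StTPB) : StTMS := by
  obtain ⟨hpull, _, hmul, _, _, hcongr⟩ := hTPB
  intro A J hJ hlog q hq
  obtain ⟨a, ha⟩ : ∃ a, a = (A : Mat) 0 0 := ⟨_, rfl⟩
  obtain ⟨b, hb⟩ : ∃ b, b = (A : Mat) 0 1 := ⟨_, rfl⟩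
  obtain ⟨c, hc⟩ : ∃ c, c = (A : Mat) 1 0 := ⟨_, rfl⟩
  obtain ⟨d, hd⟩ : ∃ d, d = (A : Mat) 1 1 := ⟨_, rfl⟩
  have hden : ∀ z, den A z = c * z + d := by
    intro z
    rw [hc, hd]
    rfl
  have hmob : ∀ z, mob A z = (a * z + b) / (c * z + d) := by
    intro z
    rw [ha, hb, hc, hd]
    rfl
  have hdet : a * d - b * c = 1 := by
    have h := A.det_coe
    rw [Matrix.det_fin_two, ← ha, ← hb, ← hc, ← hd] at h
    exact h
  have hconst : ∀ k : ℂ, k ≠ 0 → LogOn J (fun _ => k) := by
    intro k hk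
    exact ⟨fun _ => Complex.log k, continuousOn_const, fun z _ => (Complex.exp_log hk).symm⟩
  have hq0 : den A q ≠ 0 := by
    intro h0
    rw [hden] at h0
    have hc0 : c ≠ 0 := by
      intro h1
      rw [h1, zero_mul, zero_add] at h0
      rw [h0, h1] at hdet
      simp at hdet
    apply hq.2
    apply hcongr J J _ _ Subset.rfl (hmul J _ _ (hconst c⁻¹ (inv_ne_zero hc0)) hlog)
    intro z _
    rw [hden]
    field_simp
    linear_combination h0
  refine ⟨hq0, fun hw => ⟨hw, fun hl => ?_⟩⟩
  have hcont : ContinuousOn (mob A) J := by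
    have h1 : ContinuousOn (fun z => (a * z + b) / (c * z + d)) J := by
      apply ContinuousOn.div
      · fun_prop
      · fun_prop
      · intro z hz
        have h2 := (hJ z hz).1
        rw [hden] at h2
        exact h2
    exact h1.congr fun z _ => hmob z
  have h1 := hpull J J (mob A) _ hcont (fun z hz => (hJ z hz).2) hl
  apply hq.2
  apply hcongr J J _ _ Subset.rfl (hmul J _ _ (hconst _ hq0) (hmul J _ _ h1 hlog))
  intro z hz
  have h2 := (hJ z hz).1
  rw [hden] at h2 hq0
  rw [hmob, hmob, hden, hden]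
  field_simp
  linear_combination (z - q) * hdet

end Pool.Agent.Helper11.QD
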