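import Pool.Agent.Helper20.QD.St5

open Filter Topology Matrix Set Metric MeasureTheory
open scoped ComplexConjugate

namespace Pool.Agent.Helper11.QD

open Pool.Agent.Helper35.PM Pool.Agent.Helper20.QD

section WCP

/-! ### differential facts -/

private theorem cda {W : ℂ → ℂ} (hO : DifferentiableOn ℂ W {z : ℂ | 1 < ‖z‖})
    (hI : ContDiffOn ℝ 1 W D) {t : ℂ} (ht : ‖t‖ ≠ 1) : ContDiffAt ℝ 1 W t := by
  rcases lt_or_gt_of_ne ht with h | h
  · exact hI.contDiffAt (isOpen_ball.mem_nhds (by simpa using h))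
  · have hop : IsOpen {z : ℂ | 1 < ‖z‖} := isOpen_lt continuous_const continuous_norm
    have h1 : AnalyticAt ℂ W t := hO.analyticAt (hop.mem_nhds h)
    exact (h1.contDiffAt (n := 1)).restrict_scalars ℝ

private theorem dzb0 {W : ℂ → ℂ} (hO : DifferentiableOn ℂ W {z : ℂ | 1 < ‖z‖}) {t : ℂ}
    (ht : 1 < ‖t‖) : dzb W t = 0 := by
  have hop : IsOpen {z : ℂ | 1 < ‖z‖} := isOpen_lt continuous_const continuous_norm
  have hd : DifferentiableAt ℂ W t := hO.differentiableAt (hop.mem_nhds ht)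
  have h1 : fderiv ℝ W t = (fderiv ℂ W t).restrictScalars ℝ :=
    (hd.hasFDerivAt.restrictScalars ℝ).fderiv
  have h2 : (fderiv ℂ W t) Complex.I = Complex.I * (fderiv ℂ W t) 1 := by
    rw [← smul_eq_mul, ← map_smul]; simp
  unfold dzb
  rw [h1]
  simp only [ContinuousLinearMap.coe_restrictScalars', h2]
  rw [← mul_assoc, Complex.I_mul_I]
  ring

private theorem rot (L : ℂ →L[ℝ] ℂ) (w : ℂ) :
    L w + Complex.I * L (Complex.I * w) = conj w * (L 1 + Complex.I * L Complex.I) := by
  have h1 : w = w.re • (1 : ℂ) + w.im • Complex.I := by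
    apply Complex.ext <;> simp
  have h2 : Complex.I * w = (-w.im) • (1 : ℂ) + w.re • Complex.I := by
    apply Complex.ext <;> simp
  have h3 : L w = w.re * L 1 + w.im * L Complex.I := by
    conv_lhs => rw [h1]
    rw [map_add, map_smul, map_smul]
    simp
  have h4 : L (Complex.I * w) = -w.im * L 1 + w.re * L Complex.I := by
    rw [h2, map_add, map_smul, map_smul]
    simp
  have h5 : conj w = w.re - w.im * Complex.I := by
    apply Complex.ext <;> simp
  rw [h3, h4, h5]
  linear_combination (L Complex.I * w.im) * Complex.I_sq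

private noncomputable def gg (W : ℂ → ℂ) (z t : ℂ) : ℂ := t * ((W t - W z) / (t - z))

private theorem gg_cda {W : ℂ → ℂ} {z t : ℂ} (hW : ContDiffAt ℝ 1 W t) (htz : t ≠ z) :
    ContDiffAt ℝ 1 (gg W z) t := by
  unfold gg
  have h0 : t - z ≠ 0 := sub_ne_zero.mpr htz
  have h1 : ContDiffAt ℝ 1 (fun t : ℂ => t - z) t := contDiffAt_id.sub contDiffAt_const
  have h2 : ContDiffAt ℝ 1 (fun t : ℂ => (t - z)⁻¹) t := h1.inv h0
  have h3 : ContDiffAt ℝ 1 (fun t : ℂ => W t - W z) t := hW.sub contDiffAt_const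
  have h4 := contDiffAt_id.mul (h3.mul h2)
  refine h4.congr_of_eventuallyEq (Eventually.of_forall fun t => ?_)
  simp [div_eq_mul_inv]

private theorem gg_rot {W : ℂ → ℂ} {z t : ℂ} (hW : ContDiffAt ℝ 1 W t) (htz : t ≠ z) (w : ℂ) :
    fderiv ℝ (gg W z) t w + Complex.I * fderiv ℝ (gg W z) t (Complex.I * w) =
      conj w * (2 * (t / (t - z)) * dzb W t) := by
  have h0 : t - z ≠ 0 := sub_ne_zero.mpr htz
  have hc : HasDerivAt (fun t : ℂ => t / (t - z)) ((1 * (t - z) - t * 1) / (t - z) ^ 2) t :=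
    (hasDerivAt_id t).div ((hasDerivAt_id t).sub_const z) h0
  set c' : ℂ := (1 * (t - z) - t * 1) / (t - z) ^ 2 with hc'
  have hc2 : HasFDerivAt (fun t : ℂ => t / (t - z)) (c' • (1 : ℂ →L[ℝ] ℂ)) t :=
    hc.complexToReal_fderiv
  have hw : HasFDerivAt (fun t => W t - W z) (fderiv ℝ W t) t :=
    ((hW.differentiableAt (by norm_num)).hasFDerivAt).sub_const _
  have hm := hc2.mul hw
  have hg : (gg W z) = ((fun t : ℂ => t / (t - z)) * fun t => W t - W z) := by
    funext t
    simp only [gg, Pi.mul_apply]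
    ring
  have hL : fderiv ℝ (gg W z) t =
      (t / (t - z)) • fderiv ℝ W t + (W t - W z) • (c' • (1 : ℂ →L[ℝ] ℂ)) := by
    rw [hg]; exact hm.fderiv
  rw [hL]
  simp only [ContinuousLinearMap.add_apply, ContinuousLinearMap.smul_apply,
    ContinuousLinearMap.one_apply, smul_eq_mul]
  have hr := rot (fderiv ℝ W t) w
  unfold dzb
  linear_combination (t / (t - z)) * hr + (W t - W z) * c' * w * Complex.I_sq

/-! ### polar coordinates -/

private noncomputable def ev (a : ℝ) : ℂ := Complex.exp (a * Complex.I)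

private theorem ev_cs (a : ℝ) : ev a = Real.cos a + Real.sin a * Complex.I := by
  unfold ev; rw [Complex.exp_mul_I, Complex.ofReal_cos, Complex.ofReal_sin]

private theorem ev_norm (a : ℝ) : ‖ev a‖ = 1 := Complex.norm_exp_ofReal_mul_I a

private theorem ev_cont : Continuous ev := by unfold ev; fun_prop

private theorem ev_deriv (a : ℝ) : HasDerivAt ev (Complex.I * ev a) a := by
  unfold ev
  have h1 : HasDerivAt (fun a : ℝ => (a : ℂ) * Complex.I) (1 * Complex.I) a :=
    (Complex.ofRealCLM.hasDerivAt).mul_const _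
  have h2 := h1.cexp
  convert h2 using 1
  ring

private theorem norm_sev {s : ℝ} (hs : 0 ≤ s) (a : ℝ) : ‖(s : ℂ) * ev a‖ = s := by
  rw [norm_mul, ev_norm, mul_one, Complex.norm_real, Real.norm_eq_abs, abs_of_nonneg hs]

private theorem pol_int {H : ℂ → ℂ} (hH : Integrable H) (hm : Measurable H) :
    IntegrableOn (fun p : ℝ × ℝ => (p.1 : ℂ) * H (p.1 * ev p.2))
      (Ioi 0 ×ˢ Ioo (-Real.pi) Real.pi) := by
  have hev : Measurable ev := ev_cont.measurable
  refine ⟨Measurable.aestronglyMeasurable ?_, ?_⟩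
  · exact (Complex.measurable_ofReal.comp measurable_fst).mul
      (hm.comp ((Complex.measurable_ofReal.comp measurable_fst).mul (hev.comp measurable_snd)))
  · rw [hasFiniteIntegral_iff_enorm]
    have h1 := Complex.lintegral_comp_polarCoord_symm (fun t => ‖H t‖ₑ)
    rw [polarCoord_target] at h1
    have h2 : ∫⁻ p in Ioi (0 : ℝ) ×ˢ Ioo (-Real.pi) Real.pi, ‖(p.1 : ℂ) * H (p.1 * ev p.2)‖ₑ =
        ∫⁻ p in Ioi (0 : ℝ) ×ˢ Ioo (-Real.pi) Real.pi, ENNReal.ofReal p.1 •
          ‖H (Complex.polarCoord.symm p)‖ₑ := by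
      refine setLIntegral_congr_fun (measurableSet_Ioi.prod measurableSet_Ioo) ?_
      intro p hp
      simp only
      rw [enorm_mul, Complex.polarCoord_symm_apply, ← ev_cs, smul_eq_mul]
      congr 1
      rw [← ofReal_norm_eq_enorm, Complex.norm_real, Real.norm_eq_abs,
        abs_of_pos (show (0 : ℝ) < p.1 from hp.1)]
    rw [h2, h1]
    have := hH.2
    rwa [hasFiniteIntegral_iff_enorm] at this

private theorem pol_eq {H : ℂ → ℂ} (hH : Integrable H) (hm : Measurable H) :
    (∫ t, H t = ∫ s in Ioi (0:ℝ), (s : ℂ) * ∫ θ in (-Real.pi)..Real.pi, H (s * ev θ)) ∧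
    IntegrableOn (fun s : ℝ => (s : ℂ) * ∫ θ in (-Real.pi)..Real.pi, H (s * ev θ)) (Ioi 0) := by
  have hint := pol_int hH hm
  have hpi : -Real.pi ≤ Real.pi := by linarith [Real.pi_pos]
  have h0 : ∀ s : ℝ, ∫ θ in Ioo (-Real.pi) Real.pi, (s : ℂ) * H (s * ev θ) =
      (s : ℂ) * ∫ θ in (-Real.pi)..Real.pi, H (s * ev θ) := by
    intro s
    rw [intervalIntegral.integral_of_le hpi, ← integral_Ioc_eq_integral_Ioo]
    exact integral_const_mul _ _
  rw [Measure.volume_eq_prod, IntegrableOn, ← Measure.prod_restrict] at hint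
  constructor
  · rw [← Complex.integral_comp_polarCoord_symm, polarCoord_target]
    have h2 : ∫ p in Ioi (0 : ℝ) ×ˢ Ioo (-Real.pi) Real.pi, p.1 • H (Complex.polarCoord.symm p) =
        ∫ p in Ioi (0 : ℝ) ×ˢ Ioo (-Real.pi) Real.pi, (p.1 : ℂ) * H (p.1 * ev p.2) := by
      refine setIntegral_congr_fun (measurableSet_Ioi.prod measurableSet_Ioo) ?_
      intro p hp
      simp only
      rw [Complex.polarCoord_symm_apply, ← ev_cs, Complex.real_smul]
    rw [h2, Measure.volume_eq_prod, ← Measure.prod_restrict, integral_prod _ hint]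
    simp only [h0]
  · have := hint.integral_prod_left
    simp only [h0] at this
    exact this

/-! ### the circle integral -/

variable {W : ℂ → ℂ} {z : ℂ}

private noncomputable def PH (W : ℂ → ℂ) (z : ℂ) (s : ℝ) : ℂ :=
  ∫ θ in (-Real.pi)..Real.pi, gg W z (s * ev θ)

private theorem gg_meas (hW : Continuous W) : Measurable (gg W z) := by
  unfold gg
  exact measurable_id.mul ((hW.measurable.sub_const _).div (measurable_id.sub_const _))

private def Om (z : ℂ) : Set ℂ := {t : ℂ | ‖t‖ ≠ 1 ∧ t ≠ z}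

private theorem Om_open (z : ℂ) : IsOpen (Om z) := by
  have h1 : IsOpen {t : ℂ | ‖t‖ ≠ 1} := isOpen_ne_fun continuous_norm continuous_const
  exact h1.inter isOpen_ne

private theorem gg_fc (hW : ∀ t : ℂ, ‖t‖ ≠ 1 → ContDiffAt ℝ 1 W t) :
    ContinuousOn (fderiv ℝ (gg W z)) (Om z) := by
  have h1 : ContDiffOn ℝ 1 (gg W z) (Om z) := fun t ht =>
    (gg_cda (hW t ht.1) ht.2).contDiffWithinAt
  exact h1.continuousOn_fderiv_of_isOpen (Om_open z) le_rfl

private theorem PH_deriv (hWc : Continuous W) (hW : ∀ t : ℂ, ‖t‖ ≠ 1 → ContDiffAt ℝ 1 W t)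
    {s : ℝ} (hs : 0 < s) (hs1 : s ≠ 1) (hsz : s ≠ ‖z‖) :
    HasDerivAt (PH W z)
      (∫ θ in (-Real.pi)..Real.pi, fderiv ℝ (gg W z) (s * ev θ) (ev θ)) s := by
  -- a compact neighbourhood
  have hnb : ∀ᶠ s' in 𝓝 s, 0 < s' ∧ s' ≠ 1 ∧ s' ≠ ‖z‖ := by
    have e1 : ∀ᶠ s' in 𝓝 s, 0 < s' := lt_mem_nhds hs
    have e2 : ∀ᶠ s' in 𝓝 s, s' ≠ 1 := isOpen_ne.mem_nhds hs1
    have e3 : ∀ᶠ s' in 𝓝 s, s' ≠ ‖z‖ := isOpen_ne.mem_nhds hsz
    exact e1.and (e2.and e3)
  obtain ⟨δ, hδ, hδs⟩ := Metric.nhds_basis_closedBall.eventually_iff.mp hnb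
  have hmem : ∀ s' ∈ closedBall s δ, ∀ θ : ℝ, (s' : ℂ) * ev θ ∈ Om z := by
    intro s' hs' θ
    obtain ⟨h1, h2, h3⟩ := hδs hs'
    refine ⟨by rw [norm_sev h1.le]; exact h2, ?_⟩
    rintro h
    apply h3
    rw [← h, norm_sev h1.le]
  set K : Set (ℝ × ℝ) := closedBall s δ ×ˢ Icc (-Real.pi) Real.pi with hK
  have hKc : IsCompact K := (isCompact_closedBall _ _).prod isCompact_Icc
  have hFc : ContinuousOn (fun p : ℝ × ℝ => fderiv ℝ (gg W z) (p.1 * ev p.2) (ev p.2))
      (closedBall s δ ×ˢ (univ : Set ℝ)) := by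
    have h2 : Continuous fun p : ℝ × ℝ => ev p.2 := ev_cont.comp continuous_snd
    have h3 : Continuous fun p : ℝ × ℝ => (p.1 : ℂ) * ev p.2 :=
      (Complex.continuous_ofReal.comp continuous_fst).mul h2
    refine ContinuousOn.clm_apply ((gg_fc hW).comp h3.continuousOn ?_) h2.continuousOn
    intro p hp
    exact hmem p.1 hp.1 p.2
  obtain ⟨C, hC⟩ := hKc.exists_bound_of_continuousOn (hFc.mono (by
    intro p hp; exact ⟨hp.1, mem_univ _⟩))
  have hmeas : ∀ s' : ℝ, Measurable fun θ => gg W z ((s' : ℂ) * ev θ) := fun s' =>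
    (gg_meas hWc).comp (measurable_const.mul ev_cont.measurable)
  have hpi : -Real.pi ≤ Real.pi := by linarith [Real.pi_pos]
  have hgc : ContinuousOn (fun θ : ℝ => gg W z ((s : ℂ) * ev θ)) univ := by
    intro θ _
    have hm := hmem s (mem_closedBall_self hδ.le) θ
    have h1 : ContinuousAt (gg W z) ((s : ℂ) * ev θ) := (gg_cda (hW _ hm.1) hm.2).continuousAt
    have h2 : ContinuousAt (fun θ : ℝ => (s : ℂ) * ev θ) θ :=
      (continuous_const.mul ev_cont).continuousAt
    exact (ContinuousAt.comp (f := fun θ : ℝ => (s : ℂ) * ev θ) h1 h2).continuousWithinAt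
  have hgc' : Continuous (fun θ : ℝ => gg W z ((s : ℂ) * ev θ)) := by
    rwa [← continuousOn_univ]
  have hFs : Continuous (fun θ : ℝ => fderiv ℝ (gg W z) ((s : ℂ) * ev θ) (ev θ)) := by
    have h1 : Continuous fun θ : ℝ => ((s, θ) : ℝ × ℝ) := by fun_prop
    exact hFc.comp_continuous h1 (fun θ => ⟨mem_closedBall_self hδ.le, mem_univ _⟩)
  refine (intervalIntegral.hasDerivAt_integral_of_dominated_loc_of_deriv_le
    (F := fun (s' : ℝ) θ => gg W z ((s' : ℂ) * ev θ))
    (F' := fun (s' : ℝ) θ => fderiv ℝ (gg W z) ((s' : ℂ) * ev θ) (ev θ))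
    (bound := fun _ => C) (s := closedBall s δ) (closedBall_mem_nhds s hδ)
    (Eventually.of_forall fun s' => (hmeas s').aestronglyMeasurable)
    (hgc'.intervalIntegrable _ _) hFs.aestronglyMeasurable ?_ (by simp) ?_).2
  · refine Eventually.of_forall fun θ hθ s' hs' => hC (s', θ) ⟨hs', ?_⟩
    rw [uIoc_of_le hpi] at hθ
    exact Ioc_subset_Icc_self hθ
  · refine Eventually.of_forall fun θ hθ s' hs' => ?_
    have hm := hmem s' hs' θ
    have h1 : HasFDerivAt (gg W z) (fderiv ℝ (gg W z) ((s' : ℂ) * ev θ)) ((s' : ℂ) * ev θ) :=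
      ((gg_cda (hW _ hm.1) hm.2).differentiableAt (by norm_num)).hasFDerivAt
    have h2 : HasDerivAt (fun s' : ℝ => (s' : ℂ) * ev θ) (1 * ev θ) s' :=
      (Complex.ofRealCLM.hasDerivAt).mul_const _
    rw [one_mul] at h2
    exact h1.comp_hasDerivAt s' h2

private theorem PH_deriv2 (hWc : Continuous W) (hW : ∀ t : ℂ, ‖t‖ ≠ 1 → ContDiffAt ℝ 1 W t)
    {s : ℝ} (hs : 0 < s) (hs1 : s ≠ 1) (hsz : s ≠ ‖z‖) :
    HasDerivAt (PH W z) (2 * ((s : ℂ) * ∫ θ in (-Real.pi)..Real.pi,
      dzb W (s * ev θ) / (s * ev θ - z))) s := by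
  have hmem : ∀ θ : ℝ, (s : ℂ) * ev θ ∈ Om z := by
    intro θ
    refine ⟨by rw [norm_sev hs.le]; exact hs1, ?_⟩
    rintro h
    apply hsz
    rw [← h, norm_sev hs.le]
  have h0 := PH_deriv (z := z) hWc hW hs hs1 hsz
  have hs0 : (s : ℂ) ≠ 0 := by exact_mod_cast hs.ne'
  -- the angular derivative
  have hcont : Continuous (fun θ : ℝ => fderiv ℝ (gg W z) ((s : ℂ) * ev θ)) :=
    (gg_fc hW).comp_continuous (continuous_const.mul ev_cont) hmem
  have hA : Continuous (fun θ : ℝ => fderiv ℝ (gg W z) ((s : ℂ) * ev θ) (ev θ)) :=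
    hcont.clm_apply ev_cont
  have hB : Continuous (fun θ : ℝ => fderiv ℝ (gg W z) ((s : ℂ) * ev θ)
      (Complex.I * ev θ)) := hcont.clm_apply (continuous_const.mul ev_cont)
  have hder : ∀ θ : ℝ, HasDerivAt (fun θ : ℝ => gg W z ((s : ℂ) * ev θ))
      ((s : ℂ) * fderiv ℝ (gg W z) ((s : ℂ) * ev θ) (Complex.I * ev θ)) θ := by
    intro θ
    have hm := hmem θ
    have h1 : HasFDerivAt (gg W z) (fderiv ℝ (gg W z) ((s : ℂ) * ev θ)) ((s : ℂ) * ev θ) :=
      ((gg_cda (hW _ hm.1) hm.2).differentiableAt (by norm_num)).hasFDerivAt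
    have h2 : HasDerivAt (fun θ : ℝ => (s : ℂ) * ev θ) ((s : ℂ) * (Complex.I * ev θ)) θ :=
      (ev_deriv θ).const_mul _
    have h3 := h1.comp_hasDerivAt θ h2
    have h4 : (s : ℂ) * (Complex.I * ev θ) = s • (Complex.I * ev θ) := by
      rw [Complex.real_smul]
    rw [h4, map_smul, Complex.real_smul] at h3
    exact h3
  have hzero : ∫ θ in (-Real.pi)..Real.pi, fderiv ℝ (gg W z) ((s : ℂ) * ev θ)
      (Complex.I * ev θ) = 0 := by
    have h1 := intervalIntegral.integral_eq_sub_of_hasDerivAt (a := -Real.pi) (b := Real.pi)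
      (fun θ _ => hder θ) ((continuous_const.mul hB).intervalIntegrable _ _)
    rw [intervalIntegral.integral_const_mul] at h1
    have h2 : ev Real.pi = ev (-Real.pi) := by
      rw [ev_cs, ev_cs]; simp
    rw [h2, sub_self] at h1
    exact (mul_eq_zero.mp h1).resolve_left hs0
  have hrot : ∀ θ : ℝ, fderiv ℝ (gg W z) ((s : ℂ) * ev θ) (ev θ) =
      2 * ((s : ℂ) * (dzb W (s * ev θ) / (s * ev θ - z))) -
        Complex.I * fderiv ℝ (gg W z) ((s : ℂ) * ev θ) (Complex.I * ev θ) := by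
    intro θ
    have hm := hmem θ
    have h1 := gg_rot (hW _ hm.1) hm.2 (ev θ)
    have h2 : conj (ev θ) * ev θ = 1 := by
      rw [mul_comm, Complex.mul_conj', ev_norm]; simp
    have h3 : fderiv ℝ (gg W z) ((s : ℂ) * ev θ) (ev θ) =
        conj (ev θ) * (2 * (s * ev θ / (s * ev θ - z)) * dzb W (s * ev θ)) -
          Complex.I * fderiv ℝ (gg W z) ((s : ℂ) * ev θ) (Complex.I * ev θ) := by
      rw [← h1]; ring
    rw [h3]
    congr 1
    calc _ = (conj (ev θ) * ev θ) * (2 * (s / (s * ev θ - z)) * dzb W (s * ev θ)) := by ring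
      _ = _ := by rw [h2]; ring
  have hC : Continuous (fun θ : ℝ => 2 * ((s : ℂ) * (dzb W (s * ev θ) / (s * ev θ - z)))) := by
    have : (fun θ : ℝ => 2 * ((s : ℂ) * (dzb W (s * ev θ) / (s * ev θ - z)))) =
        fun θ : ℝ => fderiv ℝ (gg W z) ((s : ℂ) * ev θ) (ev θ) +
          Complex.I * fderiv ℝ (gg W z) ((s : ℂ) * ev θ) (Complex.I * ev θ) := by
      funext θ
      rw [hrot θ]; ring
    rw [this]
    exact hA.add (continuous_const.mul hB)
  have hfin : (∫ θ in (-Real.pi)..Real.pi, fderiv ℝ (gg W z) (s * ev θ) (ev θ)) =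
      2 * ((s : ℂ) * ∫ θ in (-Real.pi)..Real.pi, dzb W (s * ev θ) / (s * ev θ - z)) := by
    have hB' : Continuous (fun θ : ℝ => Complex.I * fderiv ℝ (gg W z) ((s : ℂ) * ev θ)
      (Complex.I * ev θ)) := continuous_const.mul hB
    simp only [hrot]
    rw [intervalIntegral.integral_sub (hC.intervalIntegrable _ _)
      (hB'.intervalIntegrable _ _), intervalIntegral.integral_const_mul,
      intervalIntegral.integral_const_mul, intervalIntegral.integral_const_mul, hzero]
    ring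
  rw [hfin] at h0
  exact h0

private theorem gg_bound (hWc : Continuous W) (hz : DifferentiableAt ℝ W z) (R : ℝ) :
    ∃ C : ℝ, ∀ t : ℂ, ‖t‖ ≤ R → ‖gg W z t‖ ≤ C := by
  have h1 : (fun t => W t - W z) =O[𝓝 z] fun t => t - z := hz.hasFDerivAt.isBigO_sub
  obtain ⟨K, hK⟩ := h1.bound
  obtain ⟨δ, hδ, hδK⟩ := Metric.eventually_nhds_iff_ball.mp hK
  obtain ⟨M, hM⟩ := (isCompact_closedBall (0:ℂ) R).exists_bound_of_continuousOn
    (f := fun t => W t - W z) (hWc.sub continuous_const).continuousOn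
  refine ⟨R * (|K| + |M| / δ), fun t ht => ?_⟩
  unfold gg
  rw [norm_mul]
  have h2 : ‖(W t - W z) / (t - z)‖ ≤ |K| + |M| / δ := by
    rw [norm_div]
    by_cases hb : t ∈ ball z δ
    · have h3 := hδK t hb
      have h4 : ‖W t - W z‖ / ‖t - z‖ ≤ |K| := by
        refine div_le_of_le_mul₀ (norm_nonneg _) (abs_nonneg _) (h3.trans ?_)
        exact mul_le_mul_of_nonneg_right (le_abs_self K) (norm_nonneg _)
      have : 0 ≤ |M| / δ := by positivity
      linarith
    · have h3 : δ ≤ ‖t - z‖ := by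
        rw [mem_ball, not_lt, dist_eq_norm] at hb; exact hb
      have h4 : ‖W t - W z‖ ≤ |M| := (hM t (by simpa using ht)).trans (le_abs_self M)
      have h5 : ‖W t - W z‖ / ‖t - z‖ ≤ |M| / δ := div_le_div₀ (abs_nonneg _) h4 hδ h3
      have : 0 ≤ |K| := abs_nonneg _
      linarith
  have h3 : 0 ≤ |K| + |M| / δ := by positivity
  exact mul_le_mul ht h2 (norm_nonneg _) ((norm_nonneg _).trans ht)

private theorem gg_cont {t : ℂ} (hWc : Continuous W) (ht : t ≠ z) : ContinuousAt (gg W z) t := by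
  unfold gg
  exact continuousAt_id.mul ((hWc.continuousAt.sub continuousAt_const).div
    (continuousAt_id.sub continuousAt_const) (sub_ne_zero.mpr ht))

private theorem gg_cont0 (hWc : Continuous W) : ContinuousAt (gg W z) 0 := by
  by_cases h : (0:ℂ) = z
  · subst h
    have : gg W 0 = fun t => W t - W 0 := by
      funext t
      unfold gg
      by_cases ht : t = 0
      · simp [ht]
      · rw [sub_zero, mul_div_cancel₀ _ ht]
    rw [this]
    exact (hWc.sub continuous_const).continuousAt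
  · exact gg_cont hWc h

private theorem PH_cont (hWc : Continuous W) (hz : DifferentiableAt ℝ W z) {s : ℝ}
    (hs : 0 ≤ s) : ContinuousAt (PH W z) s := by
  obtain ⟨C, hC⟩ := gg_bound hWc hz (s + 1)
  have hpi : -Real.pi ≤ Real.pi := by linarith [Real.pi_pos]
  have hmeas : ∀ s' : ℝ, Measurable fun θ => gg W z ((s' : ℂ) * ev θ) := fun s' =>
    (gg_meas hWc).comp (measurable_const.mul ev_cont.measurable)
  have hcm : ∀ θ : ℝ, ContinuousAt (fun s' : ℝ => (s' : ℂ) * ev θ) s := fun θ =>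
    (Complex.continuous_ofReal.mul continuous_const).continuousAt
  refine intervalIntegral.continuousAt_of_dominated_interval
    (F := fun (s' : ℝ) θ => gg W z ((s' : ℂ) * ev θ)) (bound := fun _ => C)
    (Eventually.of_forall fun s' => (hmeas s').aestronglyMeasurable) ?_ (by simp) ?_
  · filter_upwards [closedBall_mem_nhds s one_pos] with s' hs'
    refine Eventually.of_forall fun θ _ => hC _ ?_
    rw [norm_mul, ev_norm, mul_one, Complex.norm_real, Real.norm_eq_abs]
    rw [mem_closedBall, Real.dist_eq] at hs'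
    have : |s'| ≤ |s' - s| + |s| := by
      have := abs_add_le (s' - s) s
      simpa using this
    rw [abs_of_nonneg hs] at this
    linarith
  · rcases hs.eq_or_lt with h | h
    · refine Eventually.of_forall fun θ _ => ?_
      have h1 : ContinuousAt (gg W z) ((s : ℂ) * ev θ) := by
        rw [← h]; simpa using gg_cont0 (z := z) hWc
      exact ContinuousAt.comp (f := fun s' : ℝ => (s' : ℂ) * ev θ) h1 (hcm θ)
    · filter_upwards [compl_mem_ae_iff.mpr (measure_singleton (μ := volume) (Complex.arg z))]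
        with θ hθ hθI
      rw [uIoc_of_le hpi] at hθI
      have h2 : (s : ℂ) * ev θ ≠ z := by
        intro h3
        apply hθ
        rw [← h3, ev_cs, Complex.ofReal_cos, Complex.ofReal_sin]
        exact (Complex.arg_mul_cos_add_sin_mul_I h hθI).symm
      exact ContinuousAt.comp (f := fun s' : ℝ => (s' : ℂ) * ev θ) (gg_cont hWc h2) (hcm θ)

/-! ### integrability -/

private theorem int_inv (z : ℂ) : IntegrableOn (fun t : ℂ => (z - t)⁻¹) D := by
  set r : ℝ := ‖z‖ + 1 with hr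
  have h1 : IntegrableOn (fun x : ℂ => ‖x‖⁻¹) (ball (0 : ℂ) r) := by
    rw [integrableOn_fun_norm_addHaar (volume : Measure ℂ) (f := fun y : ℝ => y⁻¹) (r := r)]
    rw [Complex.finrank_real_complex]
    have h2 : IntegrableOn (fun _ : ℝ => (1 : ℝ)) (Ioo 0 r) := by
      refine integrableOn_const (by simp) (by simp)
    refine h2.congr_fun ?_ measurableSet_Ioo
    intro y hy
    have : y ≠ 0 := (show (0 : ℝ) < y from hy.1).ne'
    simp [this]
  rw [← integrable_indicator_iff measurableSet_ball] at h1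
  have h2 := h1.comp_sub_right z
  have h3 : IntegrableOn (fun t : ℂ => ‖t - z‖⁻¹) (ball z r) := by
    rw [← integrable_indicator_iff measurableSet_ball]
    refine h2.congr (Eventually.of_forall fun t => ?_)
    by_cases ht : t ∈ ball z r
    · have : t - z ∈ ball (0 : ℂ) r := by
        rw [mem_ball_zero_iff]; rwa [mem_ball, dist_eq_norm] at ht
      simp only [indicator_of_mem ht, indicator_of_mem this]
    · have : t - z ∉ ball (0 : ℂ) r := by
        rw [mem_ball_zero_iff]; rwa [mem_ball, dist_eq_norm] at ht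
      simp only [indicator_of_notMem ht, indicator_of_notMem this]
  have h4 : D ⊆ ball z r := by
    intro t ht
    rw [mem_ball_zero_iff] at ht
    rw [mem_ball, dist_eq_norm]
    calc ‖t - z‖ ≤ ‖t‖ + ‖z‖ := norm_sub_le _ _
      _ < r := by rw [hr]; linarith
  refine Integrable.mono' (h3.mono_set h4) ?_ (Eventually.of_forall fun t => ?_)
  · exact (measurable_id.const_sub z).inv.aestronglyMeasurable
  · rw [norm_inv, norm_sub_rev]

private theorem dzb_meas (W : ℂ → ℂ) : Measurable (dzb W) := by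
  unfold dzb
  exact ((measurable_fderiv_apply_const ℝ W 1).add
    (measurable_const.mul (measurable_fderiv_apply_const ℝ W Complex.I))).div_const _

private theorem int_ker (hW : ∀ t : ℂ, ‖t‖ ≠ 1 → ContDiffAt ℝ 1 W t)
    (hL2 : IntegrableOn (fun z => ‖dzb W z‖ ^ 2) D) (hz : ‖z‖ ≠ 1) :
    IntegrableOn (fun t => dzb W t / (z - t)) D := by
  have hL1 : IntegrableOn (dzb W) D := by
    have h1 : IntegrableOn (fun _ : ℂ => (1 : ℝ)) D :=
      integrableOn_const (by simpa using measure_ball_lt_top.ne) (by simp)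
    refine Integrable.mono' (h1.add hL2) (dzb_meas W).aestronglyMeasurable
      (Eventually.of_forall fun t => ?_)
    simp only [Pi.add_apply]
    nlinarith [sq_nonneg (‖dzb W t‖ - 1), norm_nonneg (dzb W t)]
  have hop : IsOpen {t : ℂ | ‖t‖ ≠ 1} := isOpen_ne_fun continuous_norm continuous_const
  have hfc : ContinuousOn (fderiv ℝ W) {t : ℂ | ‖t‖ ≠ 1} := by
    have h1 : ContDiffOn ℝ 1 W {t : ℂ | ‖t‖ ≠ 1} := fun t ht => (hW t ht).contDiffWithinAt
    exact h1.continuousOn_fderiv_of_isOpen hop le_rfl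
  have hca : ContinuousAt (dzb W) z := by
    have h1 : ContinuousAt (fderiv ℝ W) z := hfc.continuousAt (hop.mem_nhds hz)
    unfold dzb
    exact ((h1.clm_apply continuousAt_const).add
      (continuousAt_const.mul (h1.clm_apply continuousAt_const))).div_const _
  have hb : ∀ᶠ t in 𝓝 z, ‖dzb W t‖ < ‖dzb W z‖ + 1 :=
    hca.norm.eventually (gt_mem_nhds (by linarith))
  obtain ⟨δ, hδ, hδM⟩ := Metric.eventually_nhds_iff_ball.mp hb
  set M : ℝ := ‖dzb W z‖ + 1 with hM
  have hM0 : 0 ≤ M := by positivity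
  refine Integrable.mono' (((int_inv z).norm.const_mul M).add (hL1.norm.const_mul δ⁻¹))
    ((dzb_meas W).div (measurable_id.const_sub z)).aestronglyMeasurable
    (Eventually.of_forall fun t => ?_)
  simp only [Pi.add_apply]
  rw [div_eq_mul_inv, norm_mul]
  by_cases hb : t ∈ ball z δ
  · have h1 : ‖dzb W t‖ * ‖(z - t)⁻¹‖ ≤ M * ‖(z - t)⁻¹‖ :=
      mul_le_mul_of_nonneg_right (hδM t hb).le (norm_nonneg _)
    have : 0 ≤ δ⁻¹ * ‖dzb W t‖ := by positivity
    linarith
  · have h3 : δ ≤ ‖z - t‖ := by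
      rw [mem_ball, not_lt, dist_eq_norm, norm_sub_rev] at hb; exact hb
    have h4 : ‖(z - t)⁻¹‖ ≤ δ⁻¹ := by
      rw [norm_inv]; exact inv_anti₀ hδ h3
    have h5 : ‖dzb W t‖ * ‖(z - t)⁻¹‖ ≤ δ⁻¹ * ‖dzb W t‖ := by
      rw [mul_comm]; exact mul_le_mul_of_nonneg_right h4 (norm_nonneg _)
    have : 0 ≤ M * ‖(z - t)⁻¹‖ := by positivity
    linarith

/-! ### the value of the circle integral -/

private theorem PH_val (hWc : Continuous W) (hO : DifferentiableOn ℂ W {z : ℂ | 1 < ‖z‖})
    (hW : ∀ t : ℂ, ‖t‖ ≠ 1 → ContDiffAt ℝ 1 W t)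
    (hint : IntegrableOn (fun t => dzb W t / (z - t)) D) (hz : ‖z‖ ≠ 1) {R : ℝ} (hR : 1 ≤ R) :
    PH W z R = 2 * ∫ t in D, dzb W t / (t - z) := by
  set H : ℂ → ℂ := D.indicator (fun t => dzb W t / (t - z)) with hH
  have hneg : (fun t => dzb W t / (t - z)) = fun t => -(dzb W t / (z - t)) := by
    funext t
    rw [← neg_sub z t, div_neg]
  have hHi : Integrable H := by
    rw [hH, integrable_indicator_iff measurableSet_ball, hneg]
    exact hint.neg
  have hHm : Measurable H :=
    ((dzb_meas W).div (measurable_id.sub_const z)).indicator measurableSet_ball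
  obtain ⟨hp1, hp2⟩ := pol_eq hHi hHm
  have hR0 : 0 ≤ R := by linarith
  -- the radial integral is over `[0, R]`
  have hcut : ∀ s : ℝ, R < s → (s : ℂ) * ∫ θ in (-Real.pi)..Real.pi, H (s * ev θ) = 0 := by
    intro s hs
    have h1 : ∀ θ : ℝ, H (s * ev θ) = 0 := by
      intro θ
      rw [hH]
      refine indicator_of_notMem ?_ _
      rw [mem_ball_zero_iff, norm_sev (by linarith)]
      linarith
    simp [h1]
  have hval : ∫ s in (0 : ℝ)..R, (s : ℂ) * ∫ θ in (-Real.pi)..Real.pi, H (s * ev θ) =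
      ∫ t, H t := by
    rw [hp1, intervalIntegral.integral_of_le hR0]
    have hU : Ioi (0 : ℝ) = Ioc 0 R ∪ Ioi R := (Ioc_union_Ioi_eq_Ioi hR0).symm
    rw [hU, setIntegral_union (by
      rw [Set.disjoint_left]; intro x hx hx'; exact absurd hx.2 (not_le.mpr hx')) measurableSet_Ioi
      (hp2.mono_set Ioc_subset_Ioi_self) (hp2.mono_set (Ioi_subset_Ioi hR0))]
    rw [setIntegral_congr_fun (g := fun _ => (0 : ℂ)) measurableSet_Ioi (fun s hs => hcut s hs)]
    simp
  have hd : ∀ s ∈ Ioo 0 R \ {1, ‖z‖}, HasDerivAt (PH W z)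
      (2 * ((s : ℂ) * ∫ θ in (-Real.pi)..Real.pi, H (s * ev θ))) s := by
    rintro s ⟨hs, hs2⟩
    simp only [mem_insert_iff, mem_singleton_iff, not_or] at hs2
    have h1 := PH_deriv2 (z := z) hWc hW hs.1 hs2.1 hs2.2
    have h2 : ∀ θ : ℝ, dzb W (s * ev θ) / (s * ev θ - z) = H (s * ev θ) := by
      intro θ
      rcases lt_or_gt_of_ne hs2.1 with h | h
      · rw [hH, indicator_of_mem (by rw [mem_ball_zero_iff, norm_sev hs.1.le]; exact h)]
      · rw [hH, indicator_of_notMem (by
          rw [mem_ball_zero_iff, norm_sev hs.1.le]; exact not_lt.mpr h.le),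
          dzb0 hO (by rw [norm_sev hs.1.le]; exact h), zero_div]
    simp only [h2] at h1
    exact h1
  have hii : IntervalIntegrable (fun s : ℝ => 2 * ((s : ℂ) * ∫ θ in (-Real.pi)..Real.pi,
      H (s * ev θ))) volume 0 R := by
    have h1 : IntervalIntegrable (fun s : ℝ => (s : ℂ) * ∫ θ in (-Real.pi)..Real.pi,
      H (s * ev θ)) volume 0 R := by
      rw [intervalIntegrable_iff_integrableOn_Ioc_of_le hR0]
      exact hp2.mono_set Ioc_subset_Ioi_self
    exact h1.const_mul 2
  have hftc := MeasureTheory.integral_eq_of_hasDerivAt_off_countable_of_le (PH W z)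
    (fun s : ℝ => 2 * ((s : ℂ) * ∫ θ in (-Real.pi)..Real.pi, H (s * ev θ))) hR0
    (s := {1, ‖z‖}) ((countable_singleton _).insert _)
    (fun s hs => (PH_cont hWc ((hW z hz).differentiableAt (by norm_num))
      hs.1).continuousWithinAt) hd hii
  have hP0 : PH W z 0 = 0 := by
    unfold PH gg
    simp
  rw [hP0, sub_zero, intervalIntegral.integral_const_mul, hval] at hftc
  rw [← hftc, hH, integral_indicator measurableSet_ball]

private theorem PH_lim (hWc : Continuous W)
    (hinf : Tendsto (fun z : ℂ => W z - z) (Bornology.cobounded ℂ) (𝓝 0)) {ε : ℝ}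
    (hε : 0 < ε) : ∃ R : ℝ, 1 ≤ R ∧
    ‖PH W z R - (2 * Real.pi : ℝ) * (z - W z)‖ ≤ ε * (2 * Real.pi) := by
  have hinv : Tendsto (fun t : ℂ => (t - z)⁻¹) (Bornology.cobounded ℂ) (𝓝 0) :=
    tendsto_inv₀_cobounded.comp (tendsto_sub_const_cobounded z)
  have he : Tendsto (fun t : ℂ => gg W z t - (t + (z - W z))) (Bornology.cobounded ℂ) (𝓝 0) := by
    have h1 : Tendsto (fun t : ℂ => (1 + z * (t - z)⁻¹) * (W t - t) +
        z * (z - W z) * (t - z)⁻¹) (Bornology.cobounded ℂ)
        (𝓝 ((1 + z * 0) * 0 + z * (z - W z) * 0)) :=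
      ((tendsto_const_nhds.add (hinv.const_mul z)).mul hinf).add (hinv.const_mul _)
    have h2 : ((1 + z * 0) * 0 + z * (z - W z) * 0 : ℂ) = 0 := by ring
    rw [h2] at h1
    refine h1.congr' ?_
    have hne : ∀ᶠ t : ℂ in Bornology.cobounded ℂ, t ≠ z := by
      have hb : Bornology.IsBounded ({z} : Set ℂ) := Bornology.isBounded_singleton
      have : ({z} : Set ℂ)ᶜ ∈ Bornology.cobounded ℂ := hb
      filter_upwards [this] with t ht using ht
    filter_upwards [hne] with t ht
    have h0 : t - z ≠ 0 := sub_ne_zero.mpr ht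
    unfold gg
    field_simp
    ring
  have h1 : ∀ᶠ t : ℂ in Bornology.cobounded ℂ, ‖gg W z t - (t + (z - W z))‖ < ε := by
    have := he.norm
    rw [norm_zero] at this
    exact this.eventually (gt_mem_nhds hε)
  obtain ⟨R₀, -, hR₀⟩ := hasBasis_cobounded_norm.eventually_iff.mp h1
  set R : ℝ := max (max 1 R₀) (‖z‖ + 1) with hRdef
  have hR1 : 1 ≤ R := (le_max_left _ _).trans (le_max_left _ _)
  have hR2 : R₀ ≤ R := (le_max_right _ _).trans (le_max_left _ _)
  have hR3 : ‖z‖ + 1 ≤ R := le_max_right _ _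
  have hR0 : 0 ≤ R := by linarith
  refine ⟨R, hR1, ?_⟩
  have hc1 : Continuous (fun θ : ℝ => gg W z ((R : ℂ) * ev θ)) := by
    rw [continuous_iff_continuousAt]
    intro θ
    have h2 : (R : ℂ) * ev θ ≠ z := by
      intro h
      have := norm_sev hR0 θ
      rw [h] at this
      linarith
    exact ContinuousAt.comp (f := fun θ : ℝ => (R : ℂ) * ev θ) (gg_cont hWc h2)
      (continuous_const.mul ev_cont).continuousAt
  have hc2 : Continuous (fun θ : ℝ => (R : ℂ) * ev θ + (z - W z)) :=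
    (continuous_const.mul ev_cont).add continuous_const
  have hev0 : ∫ θ in (-Real.pi)..Real.pi, ev θ = 0 := by
    have h1 := intervalIntegral.integral_eq_sub_of_hasDerivAt (a := -Real.pi) (b := Real.pi)
      (fun θ _ => ev_deriv θ) ((continuous_const.mul ev_cont).intervalIntegrable _ _)
    rw [intervalIntegral.integral_const_mul] at h1
    have h2 : ev Real.pi = ev (-Real.pi) := by
      rw [ev_cs, ev_cs]; simp
    rw [h2, sub_self] at h1
    exact (mul_eq_zero.mp h1).resolve_left Complex.I_ne_zero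
  have hval : ∫ θ in (-Real.pi)..Real.pi, ((R : ℂ) * ev θ + (z - W z)) =
      (2 * Real.pi : ℝ) * (z - W z) := by
    have hc3 : Continuous (fun θ : ℝ => (R : ℂ) * ev θ) := continuous_const.mul ev_cont
    have hc4 : Continuous (fun _ : ℝ => z - W z) := continuous_const
    rw [intervalIntegral.integral_add (hc3.intervalIntegrable _ _)
      (hc4.intervalIntegrable _ _), intervalIntegral.integral_const_mul, hev0, mul_zero, zero_add,
      intervalIntegral.integral_const, Complex.real_smul]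
    congr 2
    ring
  rw [← hval]
  unfold PH
  rw [← intervalIntegral.integral_sub (hc1.intervalIntegrable _ _) (hc2.intervalIntegrable _ _)]
  have h3 := intervalIntegral.norm_integral_le_of_norm_le_const (a := -Real.pi) (b := Real.pi)
    (C := ε) (f := fun θ : ℝ => gg W z ((R : ℂ) * ev θ) - ((R : ℂ) * ev θ + (z - W z))) (by
      intro θ _
      refine (hR₀ ?_).le
      show R₀ ≤ ‖(R : ℂ) * ev θ‖
      rw [norm_sev hR0]
      exact hR2)
  refine h3.trans (le_of_eq ?_)
  rw [abs_of_nonneg (by linarith [Real.pi_pos])]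
  ring

theorem hWCP : StWCP := by
  intro W hWc hO hI hL2 hinf z hz
  have hW : ∀ t : ℂ, ‖t‖ ≠ 1 → ContDiffAt ℝ 1 W t := fun t ht => cda hO hI ht
  have hint := int_ker hW hL2 hz
  refine ⟨hint, ?_⟩
  have h1 : (2 * ∫ t in D, dzb W t / (t - z)) = (2 * Real.pi : ℝ) * (z - W z) := by
    have h2 : ‖(2 * ∫ t in D, dzb W t / (t - z)) - (2 * Real.pi : ℝ) * (z - W z)‖ ≤ 0 := by
      refine le_of_forall_pos_le_add fun δ hδ => ?_
      obtain ⟨R, hR, hRe⟩ := PH_lim (z := z) hWc hinf
        (show 0 < δ / (2 * Real.pi) by positivity)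
      rw [PH_val hWc hO hW hint hz hR] at hRe
      rw [zero_add]
      refine hRe.trans (le_of_eq ?_)
      field_simp
    exact sub_eq_zero.mp (norm_eq_zero.mp (le_antisymm h2 (norm_nonneg _)))
  have h3 : (∫ t in D, dzb W t / (z - t)) = -∫ t in D, dzb W t / (t - z) := by
    rw [← integral_neg]
    refine integral_congr_ae (Eventually.of_forall fun t => ?_)
    simp only
    rw [← neg_sub t z, div_neg]
  have hpi : (Real.pi : ℂ) ≠ 0 := by exact_mod_cast Real.pi_ne_zero
  rw [h3]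
  push_cast at h1
  field_simp
  linear_combination (1 / 2 : ℂ) * h1

end WCP

end Pool.Agent.Helper11.QD
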